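import Pool.Agent.Helper277.IsoLoc
import Pool.Agent.Helper600.LCFactor

/-!
# Subgroups with periodic lower central factors, and roots
-/

set_option autoImplicit false

namespace Pool.Agent.Results.MP_b01f87_al.PeriodicFactorRoots

universe u

/-- `r` is a right order on `K` (strict total order, `f < g` implies `f h < g h`). -/
structure IsRightOrder {K : Type*} [Group K] (r : K → K → Prop) : Prop where
  irrefl : ∀ a, ¬ r a a
  trans : ∀ a b c, r a b → r b c → r a c
  total : ∀ a b, a ≠ b → r a b ∨ r b a
  mul_right : ∀ f g h, r f g → r (f * h) (g * h)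

/-- `r` is a total order on `K` invariant under multiplication on both sides. -/
structure IsBiOrder {K : Type*} [Group K] (r : K → K → Prop) : Prop extends IsRightOrder r where
  mul_left : ∀ f g h, r f g → r (h * f) (h * g)

/-- Every right order on `K` is a Conrad right order: `1 < f < g` implies `f g ^ m f⁻¹ > g` for some
positive integer `m`. -/
def EveryRightOrderConrad (K : Type*) [Group K] : Prop :=
  ∀ r : K → K → Prop, IsRightOrder r → ∀ f g : K, r 1 f → r f g →
    ∃ m : ℕ, 0 < m ∧ r g (f * g ^ m * f⁻¹)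

/-- The factor `γ_{n+1}(X) / γ_{n+2}(X)` of the lower central series is periodic (Mathlib's
`lowerCentralSeries` starts with `X` at the index `0`). -/
def PeriodicFactor (X : Type*) [Group X] (n : ℕ) : Prop :=
  ∀ x ∈ (⊤ : Subgroup X).lowerCentralSeries n,
    ∃ k : ℕ, 0 < k ∧ x ^ k ∈ (⊤ : Subgroup X).lowerCentralSeries (n + 1)

/-- `X` is soluble or has a periodic lower central factor. -/
def Tame (X : Type*) [Group X] : Prop :=
  Group.IsSolvable X ∨ ∃ n : ℕ, PeriodicFactor X n

open ConradSol Helper600

lemma rel_iff {K : Type*} [Group K] {r : K → K → Prop} (h : IsRightOrder r) (a b : K) :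
    r a b ↔ r 1 (b * a⁻¹) := by
  constructor
  · intro h1
    have := h.mul_right _ _ a⁻¹ h1
    rwa [mul_inv_cancel] at this
  · intro h1
    have := h.mul_right _ _ a h1
    rwa [one_mul, inv_mul_cancel_right] at this

lemma cone_of_rightOrder {K : Type*} [Group K] {r : K → K → Prop} (h : IsRightOrder r) :
    Cone {x : K | r 1 x} := by
  refine ⟨?_, h.irrefl 1, ?_⟩
  · intro x hx y hy
    have := h.mul_right _ _ y hx
    rw [one_mul] at this
    exact h.trans _ _ _ hy this
  · intro x hx
    rcases h.total 1 x (Ne.symm hx) with h1 | h1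
    · exact Or.inl h1
    · right
      have := h.mul_right _ _ x⁻¹ h1
      rwa [mul_inv_cancel, one_mul] at this

lemma rightOrder_of_cone {K : Type*} [Group K] {P : Set K} (h : Cone P) :
    IsRightOrder (fun a b : K => b * a⁻¹ ∈ P) := by
  refine ⟨?_, ?_, ?_, ?_⟩
  · intro a ha
    rw [mul_inv_cancel] at ha
    exact h.one_not_mem ha
  · intro a b c h1 h2
    have := h.mul_mem _ h2 _ h1
    rwa [show c * b⁻¹ * (b * a⁻¹) = c * a⁻¹ by group] at this
  · intro a b hab
    rcases h.total (b * a⁻¹) (fun h' => hab (mul_inv_eq_one.mp h').symm) with h1 | h1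
    · exact Or.inl h1
    · right
      rwa [show a * b⁻¹ = (b * a⁻¹)⁻¹ by group]
  · intro f g k h1
    rwa [show g * k * (f * k)⁻¹ = g * f⁻¹ by group]

lemma conrad_iff {K : Type*} [Group K] : EveryRightOrderConrad K ↔ AllConrad K := by
  constructor
  · intro h P hP f g hf hg
    obtain ⟨m, hm, h1⟩ := h _ (rightOrder_of_cone hP) f g (by simpa using hf) hg
    exact ⟨m, hm, h1⟩
  · intro h r hr f g hf hg
    obtain ⟨m, hm, h1⟩ := h _ (cone_of_rightOrder hr) f g hf ((rel_iff hr f g).mp hg)
    exact ⟨m, hm, (rel_iff hr _ _).mpr h1⟩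

lemma orderable_of_biOrder {K : Type*} [Group K] (h : ∃ r : K → K → Prop, IsBiOrder r) :
    Orderable K := by
  obtain ⟨r, hr⟩ := h
  refine ⟨{x | r 1 x}, ⟨cone_of_rightOrder hr.toIsRightOrder, ?_⟩⟩
  intro g x hx
  have h1 := hr.mul_right _ _ g⁻¹ (hr.mul_left _ _ g hx)
  rwa [mul_one, mul_inv_cancel] at h1

theorem lcs_bot {G : Type u} [Group G] (hOX : OX G) (X : Subgroup G) (hX : X.FG) (n : ℕ)
    (h : PeriodicFactor X n) : (⊤ : Subgroup X).lowerCentralSeries n = ⊥ := by
  obtain ⟨⟨P, hP⟩, hA⟩ := hOX
  have _ : Group.FG X := (Group.fg_iff_subgroup_fg X).mpr hX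
  exact LCFactor.lowerCentralSeries_eq_bot
    (LCFactor.centralCone_subgroup (central_of_AllConrad hA hP) X) n h

theorem nilpotent_of_tame {G : Type u} [Group G] (hOX : OX G) (X : Subgroup G) (hX : X.FG)
    (h : Tame X) : Group.IsNilpotent X := by
  rcases h with h | ⟨n, h⟩
  · exact fg_soluble_nilpotent hOX X hX h
  · exact Subgroup.nilpotent_iff_lowerCentralSeries.mpr ⟨n, lcs_bot hOX X hX n h⟩

theorem exists_isolator {G : Type u} [Group G] (hOX : OX G) (X : Subgroup G) (hX : X.FG)
    (h : Tame X) : ∃ L : Subgroup G, Group.IsNilpotent L ∧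
      ∀ (x : G) (k : ℕ), 0 < k → x ^ k ∈ X → x ∈ L := by
  have hn := nilpotent_of_tame hOX X hX h
  obtain ⟨L, hL1, hL2, hL3⟩ := exists_nilpotent_RC X G hOX X.subtype
  exact ⟨L, hL2, fun x k hk hx => hL1.isolated hk (hL3 ⟨⟨x ^ k, hx⟩, rfl⟩)⟩

/-- Let `G` be an orderable group, soluble or not, all of whose right orders are Conrad.

(1) If the lower central factor `γ_n / γ_{n+1}` of a finitely generated subgroup `X` of `G` is
periodic, then `γ_n` is trivial (so `X` is nilpotent).

(2) If a finitely generated subgroup `S` of `G` is soluble or has a periodic lower central factor,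
then some nilpotent subgroup of `G` contains all elements of `G` that have a positive power in `S`
(so every subgroup of `G` that contains `S` with finite index is nilpotent).

(3) If `H` is a subgroup of `G` such that for all `f, g ∈ H` some positive powers `f ^ k`, `g ^ l`
generate a subgroup that is soluble or has a periodic lower central factor, then every right order on
`H` is a Conrad right order. -/
theorem result (G : Type u) [Group G]
    (hG : ∃ r : G → G → Prop, IsBiOrder r) (hC : EveryRightOrderConrad G) :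
    (∀ X : Subgroup G, X.FG → ∀ n : ℕ, PeriodicFactor X n →
      (⊤ : Subgroup X).lowerCentralSeries n = ⊥) ∧
    (∀ S : Subgroup G, S.FG → Tame S → ∃ L : Subgroup G, Group.IsNilpotent L ∧
      ∀ (x : G) (k : ℕ), 0 < k → x ^ k ∈ S → x ∈ L) ∧
    (∀ H : Subgroup G, (∀ f ∈ H, ∀ g ∈ H, ∃ k l : ℕ, 0 < k ∧ 0 < l ∧
        Tame (Subgroup.closure {f ^ k, g ^ l} : Subgroup G)) →
      EveryRightOrderConrad H) := by
  classical
  have hOX : OX G := ⟨orderable_of_biOrder hG, conrad_iff.mp hC⟩
  refine ⟨fun X hX n h => lcs_bot hOX X hX n h, fun X hX h => exists_isolator hOX X hX h, ?_⟩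
  intro H hH
  refine conrad_iff.mpr fun P hP => conrad_of_nilpotent hP ?_
  intro f g
  obtain ⟨k, l, hk, hl, h⟩ := hH f f.2 g g.2
  obtain ⟨L, hL, hLp⟩ := exists_isolator hOX (Subgroup.closure {(f : G) ^ k, (g : G) ^ l})
    ⟨{(f : G) ^ k, (g : G) ^ l}, by simp⟩ h
  have hf : (f : G) ∈ L := hLp f k hk (Subgroup.subset_closure (by simp))
  have hg : (g : G) ∈ L := hLp g l hl (Subgroup.subset_closure (by simp))
  have hle : (Subgroup.closure {f, g} : Subgroup H).map H.subtype ≤ L := by
    rw [MonoidHom.map_closure, Set.image_pair, Subgroup.closure_le]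
    rintro x (rfl | rfl)
    · exact hf
    · exact hg
  have h1 : Group.IsNilpotent ((Subgroup.closure {f, g} : Subgroup H).map H.subtype) := by
    refine Subgroup.isNilpotent_of_ker_le_center (Subgroup.inclusion hle) ?_
    intro x hx
    have h1 : x = 1 := Subgroup.inclusion_injective hle (by rw [map_one]; exact hx)
    rw [h1]
    exact one_mem _
  let e := (Subgroup.closure {f, g} : Subgroup H).equivMapOfInjective H.subtype H.subtype_injective
  exact Group.nilpotent_of_mulEquiv e.symm

/-- Sanity check: the hypotheses are satisfied by the infinite cyclic group. -/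
theorem hypotheses_int : (∃ r : Multiplicative ℤ → Multiplicative ℤ → Prop, IsBiOrder r) ∧
    EveryRightOrderConrad (Multiplicative ℤ) := by
  constructor
  · refine ⟨(· < ·), ⟨⟨lt_irrefl, fun a b c => lt_trans, fun a b h => lt_or_gt_of_ne h, ?_⟩, ?_⟩⟩
    · intro f g h hfg
      exact mul_lt_mul_left hfg h
    · intro f g h hfg
      exact mul_lt_mul_right hfg h
  · rw [conrad_iff]
    intro P hP
    exact conrad_of_nilpotent hP (fun f g => inferInstance)

end Pool.Agent.Results.MP_b01f87_al.PeriodicFactorRoots
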